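import Pool.Agent.W978.QM.Stm

/-!
# Counting integer vectors in a parallelogram with separated determinants
-/

set_option autoImplicit false

namespace Pool.Agent.W82.QM

open Finset Pool.Agent.W978.QM

theorem half (S : Finset (Fin 2 → ℤ)) (L₁ L₂ : Fin 2 → ℝ) (A B δ lam : ℝ)
    (hA : 0 < A) (hB : 0 < B) (hδ : 0 < δ) (hlam : 0 < lam)
    (hdet : |L₁ 0 * L₂ 1 - L₁ 1 * L₂ 0| = lam)
    (hS : ∀ v ∈ S, v ≠ 0 ∧ |L₁ 0 * v 0 + L₁ 1 * v 1| ≤ A ∧
      |L₂ 0 * v 0 + L₂ 1 * v 1| / B ≤ |L₁ 0 * v 0 + L₁ 1 * v 1| / A)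
    (hsep : ∀ v ∈ S, ∀ w ∈ S, w ≠ v → w ≠ -v → δ ≤ |(v 0 * w 1 - v 1 * w 0 : ℝ)|) :
    (S.card : ℝ) ≤ 2 + 4 * A * B / (lam * δ) := by
  classical
  have hdet0 : L₁ 0 * L₂ 1 - L₁ 1 * L₂ 0 ≠ 0 := by
    intro h
    rw [h, abs_zero] at hdet
    linarith
  obtain ⟨X, hX⟩ : ∃ X : (Fin 2 → ℤ) → ℝ, X = fun v => L₁ 0 * v 0 + L₁ 1 * v 1 := ⟨_, rfl⟩
  obtain ⟨Y, hY⟩ : ∃ Y : (Fin 2 → ℤ) → ℝ, Y = fun v => L₂ 0 * v 0 + L₂ 1 * v 1 := ⟨_, rfl⟩
  have hSX : ∀ v ∈ S, v ≠ 0 ∧ |X v| ≤ A ∧ |Y v| / B ≤ |X v| / A := by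
    intro v hv
    have := hS v hv
    rw [hX, hY]
    exact this
  have hXY : ∀ v w : Fin 2 → ℤ, X v * Y w - X w * Y v =
      (L₁ 0 * L₂ 1 - L₁ 1 * L₂ 0) * (v 0 * w 1 - v 1 * w 0 : ℝ) := by
    intro v w
    rw [hX, hY]
    ring
  have hX0 : ∀ v ∈ S, X v ≠ 0 := by
    intro v hv h0
    obtain ⟨h1, h2, h3⟩ := hSX v hv
    rw [h0, abs_zero, zero_div] at h3
    have h4 : |Y v| ≤ 0 := by
      by_contra hcon
      push Not at hcon
      have := div_pos hcon hB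
      linarith
    have h5 : Y v = 0 := abs_nonpos_iff.1 h4
    rw [hX] at h0
    rw [hY] at h5
    simp only at h0 h5
    have e0 : (L₁ 0 * L₂ 1 - L₁ 1 * L₂ 0) * (v 0 : ℝ) = 0 := by
      linear_combination L₂ 1 * h0 - L₁ 1 * h5
    have e1 : (L₁ 0 * L₂ 1 - L₁ 1 * L₂ 0) * (v 1 : ℝ) = 0 := by
      linear_combination L₁ 0 * h5 - L₂ 0 * h0
    have f0 : (v 0 : ℝ) = 0 := (mul_eq_zero.1 e0).resolve_left hdet0
    have f1 : (v 1 : ℝ) = 0 := (mul_eq_zero.1 e1).resolve_left hdet0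
    apply h1
    funext i
    fin_cases i
    · exact_mod_cast f0
    · exact_mod_cast f1
  obtain ⟨η, hη⟩ : ∃ η : ℝ, η = lam * δ / (A * B) := ⟨_, rfl⟩
  have hηpos : 0 < η := by rw [hη]; positivity
  obtain ⟨u, hu⟩ : ∃ u : (Fin 2 → ℤ) → ℝ, u = fun v => (A / B) * (Y v / X v) := ⟨_, rfl⟩
  have hu1 : ∀ v ∈ S, |u v| ≤ 1 := by
    intro v hv
    obtain ⟨h1, h2, h3⟩ := hSX v hv
    have hx : 0 < |X v| := abs_pos.2 (hX0 v hv)
    rw [hu]
    simp only
    rw [abs_mul, abs_div, abs_div, abs_of_pos hA, abs_of_pos hB]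
    rw [div_le_div_iff₀ hB hA] at h3
    rw [div_mul_div_comm, div_le_one (by positivity)]
    linarith
  have hsepu : ∀ v ∈ S, ∀ w ∈ S, w ≠ v → w ≠ -v → η ≤ |u v - u w| := by
    intro v hv w hw h1 h2
    have h3 := hsep v hv w hw h1 h2
    have hx : 0 < |X v| := abs_pos.2 (hX0 v hv)
    have hx' : 0 < |X w| := abs_pos.2 (hX0 w hw)
    have e1 : u v - u w = -(A / B) * ((X v * Y w - X w * Y v) / (X v * X w)) := by
      rw [hu]
      simp only
      have a1 := hX0 v hv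
      have a2 := hX0 w hw
      field_simp
      ring
    rw [e1, hXY, abs_mul, abs_neg, abs_div, abs_div, abs_mul, abs_mul, hdet, abs_of_pos hA,
      abs_of_pos hB, hη, div_mul_div_comm]
    rw [div_le_div_iff₀ (by positivity) (by positivity)]
    have h4 : |X v| * |X w| ≤ A * A :=
      mul_le_mul (hSX v hv).2.1 (hSX w hw).2.1 hx'.le hA.le
    calc lam * δ * (B * (|X v| * |X w|)) ≤ lam * δ * (B * (A * A)) := by gcongr
      _ = A * (lam * δ) * (A * B) := by ring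
      _ ≤ A * (lam * |(v 0 * w 1 - v 1 * w 0 : ℝ)|) * (A * B) := by gcongr
  have hcard := Finset.card_le_mul_card_image_of_maps_to (s := S)
    (f := fun v => ⌊(u v + 1) / η⌋₊) (t := Finset.range (⌊2 / η⌋₊ + 1)) (fun v hv => by
      rw [Finset.mem_range]
      have := (abs_le.1 (hu1 v hv)).2
      have h5 : (u v + 1) / η ≤ 2 / η := by gcongr; linarith
      exact Nat.lt_succ_of_le (Nat.floor_le_floor h5)) 2 (by
      intro m _
      by_cases hemp : (S.filter fun v => ⌊(u v + 1) / η⌋₊ = m) = ∅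
      · rw [hemp]; simp
      · obtain ⟨v, hv⟩ := Finset.nonempty_iff_ne_empty.2 hemp
        rw [Finset.mem_filter] at hv
        have hsub : (S.filter fun v => ⌊(u v + 1) / η⌋₊ = m) ⊆ {v, -v} := by
          intro w hw
          rw [Finset.mem_filter] at hw
          by_contra hcon
          simp only [Finset.mem_insert, Finset.mem_singleton, not_or] at hcon
          have h6 := hsepu v hv.1 w hw.1 hcon.1 hcon.2
          have a1 := (abs_le.1 (hu1 v hv.1)).1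
          have a2 := (abs_le.1 (hu1 w hw.1)).1
          have b1 : 0 ≤ (u v + 1) / η := div_nonneg (by linarith) hηpos.le
          have b2 : 0 ≤ (u w + 1) / η := div_nonneg (by linarith) hηpos.le
          have c1 := Nat.floor_le b1
          have c2 := Nat.floor_le b2
          have d1 := Nat.lt_floor_add_one ((u v + 1) / η)
          have d2 := Nat.lt_floor_add_one ((u w + 1) / η)
          rw [hv.2] at c1 d1
          rw [hw.2] at c2 d2
          have e : |(u v + 1) / η - (u w + 1) / η| < 1 := by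
            rw [abs_lt]; constructor <;> linarith
          have e' : (u v + 1) / η - (u w + 1) / η = (u v - u w) / η := by ring
          rw [e', abs_div, abs_of_pos hηpos, div_lt_one hηpos] at e
          linarith
        exact le_trans (Finset.card_le_card hsub) Finset.card_le_two)
  rw [Finset.card_range] at hcard
  have h7 : (S.card : ℝ) ≤ 2 * ((⌊2 / η⌋₊ : ℝ) + 1) := by exact_mod_cast hcard
  have h8 : (⌊2 / η⌋₊ : ℝ) ≤ 2 / η := Nat.floor_le (by positivity)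
  have h9 : 2 / η = 2 * A * B / (lam * δ) := by
    rw [hη]
    field_simp
  calc (S.card : ℝ) ≤ 2 * ((⌊2 / η⌋₊ : ℝ) + 1) := h7
    _ ≤ 2 * (2 / η + 1) := by gcongr
    _ = 2 + 4 * A * B / (lam * δ) := by rw [h9]; ring

theorem par : S_PAR := by
  classical
  intro S L₁ L₂ A B δ lam hA hB hδ hlam hdet hS hsep
  have h1 := half (S.filter fun v => |L₂ 0 * v 0 + L₂ 1 * v 1| / B ≤
      |L₁ 0 * v 0 + L₁ 1 * v 1| / A) L₁ L₂ A B δ lam hA hB hδ hlam hdet
    (fun v hv => by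
      rw [Finset.mem_filter] at hv
      exact ⟨(hS v hv.1).1, (hS v hv.1).2.1, hv.2⟩)
    (fun v hv w hw => hsep v (Finset.mem_filter.1 hv).1 w (Finset.mem_filter.1 hw).1)
  have hdet' : |L₂ 0 * L₁ 1 - L₂ 1 * L₁ 0| = lam := by
    rw [← hdet, ← abs_neg]
    congr 1
    ring
  have h2 := half (S.filter fun v => |L₁ 0 * v 0 + L₁ 1 * v 1| / A ≤
      |L₂ 0 * v 0 + L₂ 1 * v 1| / B) L₂ L₁ B A δ lam hB hA hδ hlam hdet'
    (fun v hv => by
      rw [Finset.mem_filter] at hv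
      exact ⟨(hS v hv.1).1, (hS v hv.1).2.2, hv.2⟩)
    (fun v hv w hw => hsep v (Finset.mem_filter.1 hv).1 w (Finset.mem_filter.1 hw).1)
  have h3 : S.card ≤ (S.filter fun v => |L₂ 0 * v 0 + L₂ 1 * v 1| / B ≤
      |L₁ 0 * v 0 + L₁ 1 * v 1| / A).card + (S.filter fun v => |L₁ 0 * v 0 + L₁ 1 * v 1| / A ≤
      |L₂ 0 * v 0 + L₂ 1 * v 1| / B).card := by
    refine le_trans (Finset.card_le_card ?_) (Finset.card_union_le _ _)
    intro v hv
    rw [Finset.mem_union, Finset.mem_filter, Finset.mem_filter]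
    rcases le_total (|L₂ 0 * v 0 + L₂ 1 * v 1| / B) (|L₁ 0 * v 0 + L₁ 1 * v 1| / A) with h | h
    · exact Or.inl ⟨hv, h⟩
    · exact Or.inr ⟨hv, h⟩
  have h4 : (S.card : ℝ) ≤ ((S.filter fun v => |L₂ 0 * v 0 + L₂ 1 * v 1| / B ≤
      |L₁ 0 * v 0 + L₁ 1 * v 1| / A).card : ℝ) + ((S.filter fun v =>
      |L₁ 0 * v 0 + L₁ 1 * v 1| / A ≤ |L₂ 0 * v 0 + L₂ 1 * v 1| / B).card : ℝ) := by
    exact_mod_cast h3
  have h5 : 4 * B * A / (lam * δ) = 4 * A * B / (lam * δ) := by ring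
  have h6 : 8 * A * B / (lam * δ) = 4 * A * B / (lam * δ) + 4 * A * B / (lam * δ) := by ring
  rw [h5] at h2
  rw [h6]
  linarith

end Pool.Agent.W82.QM
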